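import Pool.Agent.L7h8.NF.FINYa

/-! # Project NF, part FINY: the perturbed map is a local diffeomorphism -/

set_option autoImplicit false

open Set Filter Topology Metric Function
open scoped Manifold ContDiff

noncomputable section

namespace Pool.Agent.L7h8.NF

open Pool.Agent.Y522 Pool.Agent.L7h20.NF

variable {m a : ℕ} {X Y : Type} [TopologicalSpace X] [ChartedSpace (E (m + 1)) X]
  [TopologicalSpace Y] [ChartedSpace (E (m + 1)) Y]

/-- local diffeomorphisms in coordinates -/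
lemma LD_of_coords {A : E (m + 1) → X} {g : X → Y} {B : Y → E (m + 1)} {w : E (m + 1)}
    (hA : LD (m + 1) A w) (hB : LD (m + 1) B (g (A w))) (hg : ContinuousAt g (A w))
    (h : LD (m + 1) (fun v => B (g (A v))) w) : LD (m + 1) g (A w) := by
  obtain ⟨p, hp1, hp2, _, hp4⟩ := hA.exists_inverse
  obtain ⟨q, hq1, _, hq3, _⟩ := hB.exists_inverse
  have h1 : LD (m + 1) (fun y => B (g (A (p y)))) (A w) := by
    have h' : LD (m + 1) (fun v => B (g (A v))) (p (A w)) := by rw [hp2]; exact h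
    exact LD.comp_fun (g := fun v => B (g (A v))) (f := p) h' hp1
  have h2 : LD (m + 1) (fun y => q (B (g (A (p y))))) (A w) := by
    have hq' : LD (m + 1) q (B (g (A (p (A w))))) := by rw [hp2]; exact hq1
    exact LD.comp_fun (g := q) (f := fun y => B (g (A (p y)))) hq' h1
  refine h2.congr ?_
  filter_upwards [hp4, hg.eventually hq3] with y hy1 hy2
  rw [hy1, hy2]

/-- the perturbed map -/
def GY (κ : Y → E a) (ρ : E a → Y) (f : X → Y) (V : X → E a) (ε : ℝ) : X → Y :=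
  fun y => ρ (κ (f y) + ε • V y)

lemma LD_of_det {g : E (m + 1) → E (m + 1)} {w : E (m + 1)} {D : E (m + 1) →L[ℝ] E (m + 1)}
    (hg : ∀ᶠ y in 𝓝 w, ContDiffAt ℝ ∞ g y) (hD : HasFDerivAt g D w) (hne : D.det ≠ 0) : LD (m + 1) g w := by
  refine LD_of_contDiffAt hg (D.toContinuousLinearEquivOfDetNeZero hne) ?_
  rw [ContinuousLinearMap.coe_toContinuousLinearEquivOfDetNeZero]
  exact hD

lemma det_ne_of_LD {g : E (m + 1) → E (m + 1)} {w : E (m + 1)} {D : E (m + 1) →L[ℝ] E (m + 1)}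
    (hg : LD (m + 1) g w) (hD : HasFDerivAt g D w) : D.det ≠ 0 := by
  obtain ⟨T, hT⟩ := hg.exists_equiv
  rw [hD.unique hT]
  exact (LinearEquiv.isUnit_det' T.toLinearEquiv).ne_zero

/-- the good pairs of a parameter and a point -/
def Good (κ : Y → E a) (ρ : E a → Y) (U : Set (E a)) (f : X → Y) (V : X → E a) (A : E (m + 1) → X)
    (B : Y → E (m + 1)) (p : ℝ × E (m + 1)) : Prop :=
  LD (m + 1) A p.2 ∧ κ (f (A p.2)) + p.1 • V (A p.2) ∈ U ∧ LD (m + 1) B (ρ (κ (f (A p.2)) + p.1 • V (A p.2)))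

variable {κ : Y → E a} {ρ : E a → Y} {U : Set (E a)} {f : X → Y} {V : X → E a}

lemma Good_ev [IsManifold (𝓡 (m + 1)) ∞ X] [IsManifold (𝓡 (m + 1)) ∞ Y]
    (hκ : Ret (m := m) κ ρ U) (hf : ContMDiff (𝓡 (m + 1)) (𝓡 (m + 1)) ∞ f) (hV : SmA (m := m) V)
    {A : E (m + 1) → X} {B : Y → E (m + 1)} {p : ℝ × E (m + 1)} (h : Good κ ρ U f V A B p) :
    ∀ᶠ q in 𝓝 p, Good κ ρ U f V A B q := by
  obtain ⟨h1, h2, h3⟩ := h
  have hVc : Continuous V := hV.continuous
  have hfc : Continuous f := hf.continuous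
  have hκc : Continuous κ := hκ.smk.continuous
  have e1 : ∀ᶠ q : ℝ × E (m + 1) in 𝓝 p, LD (m + 1) A q.2 :=
    (continuous_snd.continuousAt (x := p)).eventually h1.eventually
  have hAc : ContinuousAt (fun q : ℝ × E (m + 1) => A q.2) p :=
    ContinuousAt.comp (g := A) (f := fun q : ℝ × E (m + 1) => q.2) h1.continuousAt continuous_snd.continuousAt
  have hc : ContinuousAt (fun q : ℝ × E (m + 1) => κ (f (A q.2)) + q.1 • V (A q.2)) p := by
    have c1 : ContinuousAt (fun q : ℝ × E (m + 1) => κ (f (A q.2))) p :=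
      ContinuousAt.comp (g := fun x => κ (f x)) (hκc.comp hfc).continuousAt hAc
    have c2 : ContinuousAt (fun q : ℝ × E (m + 1) => V (A q.2)) p :=
      ContinuousAt.comp (g := V) hVc.continuousAt hAc
    exact c1.add (continuous_fst.continuousAt.smul c2)
  have e2 : ∀ᶠ q : ℝ × E (m + 1) in 𝓝 p, κ (f (A q.2)) + q.1 • V (A q.2) ∈ U :=
    hc.eventually (hκ.op.mem_nhds h2)
  have hρc : ContinuousAt (fun q : ℝ × E (m + 1) => ρ (κ (f (A q.2)) + q.1 • V (A q.2))) p :=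
    ContinuousAt.comp (g := ρ) (hκ.smr _ h2).continuousAt hc
  have e3 : ∀ᶠ q : ℝ × E (m + 1) in 𝓝 p, LD (m + 1) B (ρ (κ (f (A q.2)) + q.1 • V (A q.2))) :=
    hρc.eventually h3.eventually
  filter_upwards [e1, e2, e3] with q hq1 hq2 hq3
  exact ⟨hq1, hq2, hq3⟩

lemma R_smooth (hκ : Ret (m := m) κ ρ U) {B : Y → E (m + 1)} {u : E a} (hu : u ∈ U)
    (hB : LD (m + 1) B (ρ u)) : ContDiffAt ℝ ∞ (fun u => B (ρ u)) u :=
  contMDiffAt_iff_contDiffAt.1 (hB.contMDiffAt.comp u (hκ.smr u hu))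

lemma c_smooth (hκ : Ret (m := m) κ ρ U) (hf : ContMDiff (𝓡 (m + 1)) (𝓡 (m + 1)) ∞ f)
    {A : E (m + 1) → X} {w : E (m + 1)} (hA : LD (m + 1) A w) :
    ContDiffAt ℝ ∞ (fun w => κ (f (A w))) w :=
  contMDiffAt_iff_contDiffAt.1 (hκ.smk.contMDiffAt.comp w (hf.contMDiffAt.comp w hA.contMDiffAt))

lemma v_smooth (hV : SmA (m := m) V) {A : E (m + 1) → X} {w : E (m + 1)} (hA : LD (m + 1) A w) :
    ContDiffAt ℝ ∞ (fun w => V (A w)) w :=
  contMDiffAt_iff_contDiffAt.1 (hV.contMDiffAt.comp w hA.contMDiffAt)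

lemma slice_smooth (hκ : Ret (m := m) κ ρ U) (hf : ContMDiff (𝓡 (m + 1)) (𝓡 (m + 1)) ∞ f) (hV : SmA (m := m) V)
    {A : E (m + 1) → X} {B : Y → E (m + 1)} {p : ℝ × E (m + 1)} (h : Good κ ρ U f V A B p) :
    ContDiffAt ℝ ∞ (fun w => B (GY κ ρ f V p.1 (A w))) p.2 := by
  obtain ⟨h1, h2, h3⟩ := h
  have hR := R_smooth hκ h2 h3
  have hc := c_smooth hκ hf h1
  have hv := v_smooth hV h1
  exact ContDiffAt.comp (g := fun u => B (ρ u)) (f := fun w => κ (f (A w)) + p.1 • V (A w)) p.2 hR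
    (hc.add (hv.const_smul p.1))

lemma local_ldY (hD : S_DET3) [IsManifold (𝓡 (m + 1)) ∞ X] [IsManifold (𝓡 (m + 1)) ∞ Y]
    (hκ : Ret (m := m) κ ρ U) (hf : SettingY (m := m) f) (hV : SmA (m := m) V)
    (hpos : ∀ x, ¬ LD (m + 1) f x → PosY (m := m) κ ρ f V x) (x : X) :
    ∃ W ∈ 𝓝 x, ∃ η : ℝ, 0 < η ∧ ∀ y ∈ W, ∀ ε : ℝ, 0 < ε → ε < η → LD (m + 1) (GY κ ρ f V ε) y := by
  have key : ∃ (A : E (m + 1) → X) (B : Y → E (m + 1)) (z : E (m + 1)), A z = x ∧ CoY f A B z ∧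
      (LD (m + 1) f x ∨ 0 < tauY κ ρ f V A B z) := by
    by_cases hx : LD (m + 1) f x
    · obtain ⟨A, B, z, hz, hC⟩ := hf.sign x
      exact ⟨A, B, z, hz, hC, Or.inl hx⟩
    · obtain ⟨A, B, z, hz, hC, ht⟩ := hpos x hx
      exact ⟨A, B, z, hz, hC, Or.inr ht⟩
  obtain ⟨A, B, z, rfl, hC, hor⟩ := key
  -- the family
  obtain ⟨Φ, hΦ⟩ : ∃ Φ : ℝ × E (m + 1) → E (m + 1),
    Φ = Ph (fun u => B (ρ u)) (fun w => κ (f (A w))) (fun w => V (A w)) := ⟨_, rfl⟩
  have hΦa : ∀ ε w, Φ (ε, w) = B (GY κ ρ f V ε (A w)) := by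
    intro ε w
    rw [hΦ]
    rfl
  have hret0 : ∀ w, ρ (κ (f (A w)) + (0:ℝ) • V (A w)) = f (A w) := by
    intro w
    rw [zero_smul, add_zero, hκ.ret]
  have hGood : Good κ ρ U f V A B (0, z) := by
    refine ⟨hC.ld, ?_, ?_⟩
    · simp only [zero_smul, add_zero]
      exact hκ.mem _
    · simp only
      rw [hret0]
      exact hC.lb
  have hR : ContDiffAt ℝ ∞ (fun u => B (ρ u)) (κ (f (A z))) :=
    R_smooth hκ (hκ.mem _) (by rw [hκ.ret]; exact hC.lb)
  have hc := c_smooth hκ hf.smooth hC.ld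
  have hv := v_smooth hV hC.ld
  have hΦs : ContDiffAt ℝ ∞ Φ (0, z) := by
    rw [hΦ]
    exact Ph_smooth hR hc hv
  have hΦ2 : ContDiffAt ℝ 2 Φ (0, z) := hΦs.of_le (WithTop.coe_le_coe.2 (le_top : (2:ℕ∞) ≤ ⊤))
  have hΦev : ∀ᶠ p in 𝓝 ((0:ℝ), z), ContDiffAt ℝ 2 Φ p := hΦ2.eventually (by simp)
  have hcz : ContinuousAt (fun w : E (m + 1) => ((0:ℝ), w)) z := by fun_prop
  have hP0 : ∀ᶠ w in 𝓝 z, PP Φ 0 w = dY f A B w := by
    filter_upwards [hcz.eventually hΦev] with w hw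
    have h1 := PP_fderiv (hw.differentiableAt (by norm_num))
    unfold dY
    rw [← h1.fderiv]
    congr 1
    funext w
    rw [hΦa]
    unfold GY
    rw [hret0]
  have hdet := hD m (PP Φ) (PP' Φ) z (PP_cont hΦ2) (PP'_cont hΦ2) (by
    filter_upwards [hΦev] with p hp
    exact PP_deriv hp)
  have hmain : ∃ η : ℝ, 0 < η ∧ ∀ᶠ w in 𝓝 z, ∀ ε : ℝ, 0 < ε → ε < η → (PP Φ ε w).det ≠ 0 := by
    rcases hor with hl | hp
    · apply hdet.2
      have h1 : LD (m + 1) (fun w => B (f (A w))) z := LD.comp_fun hC.lb (LD.comp_fun hl hC.ld)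
      have h2 := PP_fderiv (hΦ2.differentiableAt (by norm_num))
      have h3 : (fun w => Φ (0, w)) = fun w => B (f (A w)) := by
        funext w
        rw [hΦa]
        unfold GY
        rw [hret0]
      rw [h3] at h2
      exact det_ne_of_LD h1 h2
    · obtain ⟨η, hη, h⟩ := hdet.1 (by
        filter_upwards [hP0, hC.nn] with w h1 h2
        rw [h1]
        exact h2) (by
        have h1 : PP' Φ 0 z = fderiv ℝ (fun w => dV κ ρ f V B (A w)) z := by
          rw [hΦ]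
          exact PP'_eq hR hc hv
        rw [h1, hP0.self_of_nhds]
        exact hp)
      refine ⟨η, hη, ?_⟩
      filter_upwards [h] with w hw ε h0 h1
      exact (hw ε h0 h1).ne'
  obtain ⟨η, hη, hev⟩ := hmain
  obtain ⟨η', hη', hev'⟩ := ev_split ((Good_ev hκ hf.smooth hV hGood).and hΦev)
  have hset : {w | (∀ ε : ℝ, 0 < ε → ε < η → (PP Φ ε w).det ≠ 0) ∧
      ∀ ε : ℝ, |ε| < η' → Good κ ρ U f V A B (ε, w) ∧ ContDiffAt ℝ 2 Φ (ε, w)} ∈ 𝓝 z := hev.and hev'
  refine ⟨_, hC.ld.image_mem_nhds hset, min η η', lt_min hη hη', ?_⟩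
  rintro _ ⟨w, ⟨hw1, hw2⟩, rfl⟩ ε h0 h1
  have hne := hw1 ε h0 (h1.trans_le (min_le_left _ _))
  obtain ⟨hG, hd⟩ := hw2 ε (by rw [abs_of_pos h0]; exact h1.trans_le (min_le_right _ _))
  have hfd := PP_fderiv (hd.differentiableAt (by norm_num))
  have hfun : (fun w => Φ (ε, w)) = fun w => B (GY κ ρ f V ε (A w)) := by
    funext w
    exact hΦa ε w
  rw [hfun] at hfd
  refine LD_of_coords (B := B) hG.1 hG.2.2 ?_ ?_
  · have hVc : Continuous V := hV.continuous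
    have hc1 : ContinuousAt (fun y => κ (f y) + ε • V y) (A w) := by
      have : Continuous (fun y => κ (f y) + ε • V y) :=
        (hκ.smk.continuous.comp hf.smooth.continuous).add (hVc.const_smul ε)
      exact this.continuousAt
    exact ContinuousAt.comp (g := ρ) (hκ.smr _ hG.2.1).continuousAt hc1
  · refine LD_of_det ?_ hfd hne
    have h3 := Good_ev hκ hf.smooth hV hG
    have h4 : ContinuousAt (fun w : E (m + 1) => (ε, w)) w := by fun_prop
    filter_upwards [h4.eventually h3] with w' hw'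
    exact slice_smooth hκ hf.smooth hV hw'

omit [ChartedSpace (E (m + 1)) X] in
lemma local_OY (hκ : Ret (m := m) κ ρ U) (hf : Continuous f) (hV : Continuous V)
    {O : Set (X × Y)} (hO : IsOpen O) (x : X) (hx : (x, f x) ∈ O) :
    ∃ W ∈ 𝓝 x, ∃ η : ℝ, 0 < η ∧ ∀ y ∈ W, ∀ ε : ℝ, 0 < ε → ε < η → (y, GY κ ρ f V ε y) ∈ O := by
  have hc0 : Continuous (fun p : ℝ × X => κ (f p.2) + p.1 • V p.2) := by
    have hκc : Continuous κ := hκ.smk.continuous
    fun_prop
  have h00 : κ (f x) + (0:ℝ) • V x = κ (f x) := by rw [zero_smul, add_zero]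
  have hc : ContinuousAt (fun p : ℝ × X => (p.2, ρ (κ (f p.2) + p.1 • V p.2))) (0, x) := by
    refine continuous_snd.continuousAt.prodMk ?_
    refine ContinuousAt.comp (g := ρ) (f := fun p : ℝ × X => κ (f p.2) + p.1 • V p.2) ?_ hc0.continuousAt
    simp only
    rw [h00]
    exact (hκ.smr _ (hκ.mem _)).continuousAt
  have h1 : ∀ᶠ p : ℝ × X in 𝓝 (0, x), (p.2, ρ (κ (f p.2) + p.1 • V p.2)) ∈ O := by
    apply hc.eventually
    apply hO.mem_nhds
    simp only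
    rw [h00, hκ.ret]
    exact hx
  obtain ⟨η, hη, hev⟩ := ev_split h1
  refine ⟨_, hev, η, hη, fun y hy ε h0 h1 => ?_⟩
  exact hy ε (by rw [abs_of_pos h0]; exact h1)

lemma dd_zero' (P : E (m + 1) →L[ℝ] E (m + 1)) : dd P 0 = 0 := by
  unfold dd
  exact map_zero _

theorem s_FINY (hD : S_DET3) : S_FINY := by
  intro m a X Y _ _ _ _ _ _ _ κ ρ U f V O hκ hf hV hVc hpos hO hFO
  have hcl : IsCompact (tsupport V) := hVc
  have hp : ∃ η : ℝ, 0 < η ∧ ∀ y ∈ tsupport V, ∀ ε : ℝ, 0 < ε → ε < η →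
      LD (m + 1) (GY κ ρ f V ε) y ∧ (y, GY κ ρ f V ε y) ∈ O := by
    refine hcl.induction_on (p := fun s => ∃ η : ℝ, 0 < η ∧ ∀ y ∈ s, ∀ ε : ℝ, 0 < ε → ε < η →
      LD (m + 1) (GY κ ρ f V ε) y ∧ (y, GY κ ρ f V ε y) ∈ O) ?_ ?_ ?_ ?_
    · exact ⟨1, one_pos, fun y hy => absurd hy (notMem_empty y)⟩
    · rintro s t hst ⟨η, hη, h⟩
      exact ⟨η, hη, fun y hy => h y (hst hy)⟩
    · rintro s t ⟨η, hη, h⟩ ⟨η', hη', h'⟩
      refine ⟨min η η', lt_min hη hη', ?_⟩
      rintro y (hy | hy) ε h0 h1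
      · exact h y hy ε h0 (h1.trans_le (min_le_left _ _))
      · exact h' y hy ε h0 (h1.trans_le (min_le_right _ _))
    · intro x _
      obtain ⟨W, hW, η, hη, h⟩ := local_ldY hD hκ hf hV hpos x
      obtain ⟨W', hW', η', hη', h'⟩ := local_OY hκ hf.smooth.continuous hV.continuous hO x (hFO x)
      refine ⟨W ∩ W', mem_nhdsWithin_of_mem_nhds (inter_mem hW hW'), min η η', lt_min hη hη', ?_⟩
      rintro y ⟨hy, hy'⟩ ε h0 h1
      exact ⟨h y hy ε h0 (h1.trans_le (min_le_left _ _)), h' y hy' ε h0 (h1.trans_le (min_le_right _ _))⟩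
  obtain ⟨η, hη, h⟩ := hp
  have hoff : ∀ x, x ∉ tsupport V → GY κ ρ f V (η / 2) x = f x := by
    intro x hx
    unfold GY
    rw [image_eq_zero_of_notMem_tsupport hx, smul_zero, add_zero, hκ.ret]
  refine ⟨GY κ ρ f V (η / 2), ?_, hoff, ?_⟩
  · intro x
    by_cases hx : x ∈ tsupport V
    · exact (h x hx (η / 2) (by linarith) (by linarith)).1
    · have hnear : V =ᶠ[𝓝 x] 0 := notMem_tsupport_iff_eventuallyEq.1 hx
      have hFx : LD (m + 1) f x := by
        by_contra hn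
        obtain ⟨A, B, z, rfl, hC, ht⟩ := hpos x hn
        have h1 : fderiv ℝ (fun w => dV κ ρ f V B (A w)) z = 0 := by
          have h2 : (fun w => dV κ ρ f V B (A w)) =ᶠ[𝓝 z] fun _ => 0 := by
            filter_upwards [hC.ld.continuousAt.eventually hnear] with w hw
            unfold dV
            rw [hw]
            simp
          rw [h2.fderiv_eq]
          simp
        unfold tauY at ht
        rw [h1, dd_zero'] at ht
        exact lt_irrefl _ ht
      refine hFx.congr ?_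
      filter_upwards [hnear] with y hy
      unfold GY
      rw [hy]
      simp [hκ.ret]
  · intro x
    by_cases hx : x ∈ tsupport V
    · exact (h x hx (η / 2) (by linarith) (by linarith)).2
    · rw [hoff x hx]
      exact hFO x

end Pool.Agent.L7h8.NF
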