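import Pool.Agent.L7h20.NF.Stm

/-! # Project NF, part BUMP: transport of a bump function -/

set_option autoImplicit false

open Set Filter Topology Metric Function
open scoped Manifold ContDiff

noncomputable section

namespace Pool.Agent.L7h8.NF

open Pool.Agent.Y522 Pool.Agent.L7h20.NF

theorem s_BUMP : S_BUMP := by
  intro m X _ _ _ _ A hinj hld θ hθ ρ hρ hθ0
  classical
  obtain ⟨g, hgdef⟩ : ∃ g : X → E (m + 1), g = invFunOn A (box m 1 1) := ⟨_, rfl⟩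
  have hg : ∀ z ∈ box m 1 1, g (A z) = z := by
    intro z hz
    rw [hgdef]
    exact hinj.leftInvOn_invFunOn hz
  obtain ⟨σ, hσ⟩ : ∃ σ : X → ℝ, σ = fun x => if x ∈ A '' box m 1 1 then θ (g x) else 0 := ⟨_, rfl⟩
  have hσ1 : ∀ z ∈ box m 1 1, σ (A z) = θ z := by
    intro z hz
    rw [hσ]
    simp only
    rw [if_pos ⟨z, hz, rfl⟩, hg z hz]
  have hσ2 : ∀ x, x ∉ A '' box m 1 1 → σ x = 0 := by
    intro x hx
    rw [hσ]
    simp only
    rw [if_neg hx]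
  have hsub : box m ρ ρ ⊆ {z : E (m + 1) | ‖tl z‖ < 1 ∧ |z 0| < 1} := fun z hz => ⟨hz.1.trans_lt hρ, hz.2.trans_lt hρ⟩
  have hsub2 : {z : E (m + 1) | ‖tl z‖ < 1 ∧ |z 0| < 1} ⊆ box m 1 1 := fun z hz => ⟨hz.1.le, hz.2.le⟩
  have hU : IsOpen {z : E (m + 1) | ‖tl z‖ < 1 ∧ |z 0| < 1} := Pool.Agent.Y870.SH.open_small_box 1
  have hcomp : IsCompact (A '' box m ρ ρ) := by
    apply (isCompact_box ρ ρ).image_of_continuousOn
    intro z hz
    exact (hld z (hsub2 (hsub hz))).continuousAt.continuousWithinAt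
  have hzero : ∀ x, x ∉ A '' box m ρ ρ → σ x = 0 := by
    intro x hx
    by_cases h : x ∈ A '' box m 1 1
    · obtain ⟨z, hz, rfl⟩ := h
      rw [hσ1 z hz]
      apply hθ0
      intro hz2
      exact hx ⟨z, hz2, rfl⟩
    · exact hσ2 x h
  refine ⟨σ, ?_, ?_, hσ1, hσ2⟩
  · intro x
    by_cases hx : x ∈ A '' {z : E (m + 1) | ‖tl z‖ < 1 ∧ |z 0| < 1}
    · obtain ⟨z, hz, rfl⟩ := hx
      have h1 : LD (m + 1) g (A z) := LD.inverse hU (fun w hw => hld w (hsub2 hw))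
        (fun w hw => hg w (hsub2 hw)) hz
      have h2 : ContMDiffAt (𝓡 (m + 1)) 𝓘(ℝ, ℝ) ∞ (fun y => θ (g y)) (A z) :=
        (contMDiffAt_iff_contDiffAt.2 hθ.contDiffAt).comp (A z) h1.contMDiffAt
      refine h2.congr_of_eventuallyEq ?_
      have h3 : A '' {z : E (m + 1) | ‖tl z‖ < 1 ∧ |z 0| < 1} ∈ 𝓝 (A z) :=
        (hld z (hsub2 hz)).image_mem_nhds (hU.mem_nhds hz)
      filter_upwards [h3] with y hy
      obtain ⟨w, hw, rfl⟩ := hy
      rw [hσ1 w (hsub2 hw), hg w (hsub2 hw)]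
    · have h4 : x ∈ (A '' box m ρ ρ)ᶜ := fun h => hx (image_mono hsub h)
      have h5 : (A '' box m ρ ρ)ᶜ ∈ 𝓝 x := hcomp.isClosed.isOpen_compl.mem_nhds h4
      have h6 : σ =ᶠ[𝓝 x] fun _ => 0 := by
        filter_upwards [h5] with y hy
        exact hzero y hy
      exact contMDiffAt_const.congr_of_eventuallyEq h6
  · exact HasCompactSupport.intro hcomp hzero

end Pool.Agent.L7h8.NF
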