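import Pool.Agent.L7h20.NF.Stm

/-! # Project NF, part BXJ: formulas in a box -/

set_option autoImplicit false

open Set Filter Topology Metric Function
open scoped Manifold ContDiff

noncomputable section

namespace Pool.Agent.L7h8.NF

open Pool.Agent.Y522 Pool.Agent.L7h20.NF

variable {m : ℕ} {X : Type} [TopologicalSpace X] [ChartedSpace (E (m + 1)) X]

lemma comp_contDiffAt {F : X → E (m + 1)} (hF : Sm F) {A : E (m + 1) → X} {z : E (m + 1)}
    (hA : LD (m + 1) A z) : ContDiffAt ℝ ∞ (fun w => F (A w)) z :=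
  contMDiffAt_iff_contDiffAt.1 (hF.contMDiffAt.comp z hA.contMDiffAt)

lemma compL_contDiffAt {F : X → E (m + 1)} (hF : Sm F) {A : E (m + 1) → X} {z : E (m + 1)}
    (L : E (m + 1) ≃L[ℝ] E (m + 1)) (hA : LD (m + 1) A z) :
    ContDiffAt ℝ ∞ (fun w => L (F (A w))) z :=
  (L : E (m + 1) →L[ℝ] E (m + 1)).contDiff.contDiffAt.comp z (comp_contDiffAt hF hA)

lemma compR_contDiffAt {σ : X → ℝ} (hσ : ContMDiff (𝓡 (m + 1)) 𝓘(ℝ, ℝ) ∞ σ) {A : E (m + 1) → X} {z : E (m + 1)}
    (hA : LD (m + 1) A z) : ContDiffAt ℝ ∞ (fun w => σ (A w)) z :=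
  contMDiffAt_iff_contDiffAt.1 (hσ.contMDiffAt.comp z hA.contMDiffAt)

lemma Bx_fderiv {F : X → E (m + 1)} (hF : Sm F) {P : E (m + 1) →L[ℝ] E m} {A : E (m + 1) → X}
    {L : E (m + 1) ≃L[ℝ] E (m + 1)} {b : E m} (h : Bx F P A L b) {z : E (m + 1)}
    (hz : z ∈ box m 1 1) : fderiv ℝ (fun w => tl (L (F (A w)))) z = tl := by
  set u : E (m + 1) → E m := fun w => tl (L (F (A w))) with hu
  have hint : ∀ w ∈ {z : E (m + 1) | ‖tl z‖ < 1 ∧ |z 0| < 1}, fderiv ℝ u w = tl := by
    intro w hw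
    have h1 : u =ᶠ[𝓝 w] fun w => tl w + b := by
      filter_upwards [(Pool.Agent.Y870.SH.open_small_box 1).mem_nhds hw] with y hy
      exact h.tail y ⟨hy.1.le, hy.2.le⟩
    rw [h1.fderiv_eq]
    exact ((tl : E (m + 1) →L[ℝ] E m).hasFDerivAt.add_const b).fderiv
  have hsm : ContDiffAt ℝ ∞ u z :=
    (tl : E (m + 1) →L[ℝ] E m).contDiff.contDiffAt.comp z (compL_contDiffAt hF L (h.ld z hz))
  have hcont : ContinuousAt (fderiv ℝ u) z :=
    (hsm.fderiv_right (m := 0) (by simp)).continuousAt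
  have hline : Tendsto (fun t : ℝ => t • z) (𝓝[<] 1) (𝓝 z) := by
    have h1 : Continuous (fun t : ℝ => t • z) := by fun_prop
    have h2 : Tendsto (fun t : ℝ => t • z) (𝓝 1) (𝓝 z) := by
      have := h1.tendsto 1
      rwa [one_smul] at this
    exact h2.mono_left nhdsWithin_le_nhds
  have h3 : Tendsto (fun t : ℝ => fderiv ℝ u (t • z)) (𝓝[<] 1) (𝓝 (fderiv ℝ u z)) :=
    hcont.tendsto.comp hline
  have h4 : ∀ᶠ t : ℝ in 𝓝[<] 1, fderiv ℝ u (t • z) = tl := by
    have h5 : Ioo (0:ℝ) 1 ∈ 𝓝[<] (1:ℝ) := Ioo_mem_nhdsLT (by norm_num)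
    filter_upwards [h5] with t ht
    apply hint
    have hz1 := hz.1
    have hz2 := hz.2
    refine ⟨?_, ?_⟩
    · rw [map_smul, norm_smul, Real.norm_of_nonneg ht.1.le]
      nlinarith [ht.1, ht.2, norm_nonneg (tl z)]
    · have : (t • z) 0 = t * z 0 := rfl
      rw [this, abs_mul, abs_of_nonneg ht.1.le]
      nlinarith [ht.1, ht.2, abs_nonneg (z 0)]
  have h6 : Tendsto (fun _ : ℝ => (tl : E (m + 1) →L[ℝ] E m)) (𝓝[<] (1:ℝ)) (𝓝 (fderiv ℝ u z)) :=
    h3.congr' h4
  exact (tendsto_nhds_unique h6 tendsto_const_nhds).symm ▸ rfl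

lemma Bx_tl {F : X → E (m + 1)} (hF : Sm F) {P : E (m + 1) →L[ℝ] E m} {A : E (m + 1) → X}
    {L : E (m + 1) ≃L[ℝ] E (m + 1)} {b : E m} (h : Bx F P A L b) {z : E (m + 1)}
    (hz : z ∈ box m 1 1) (v : E (m + 1)) : tl (dF F A L z v) = tl v := by
  have h1 := Bx_fderiv hF h hz
  have h2 : HasFDerivAt (fun w => L (F (A w))) (dF F A L z) z :=
    ((compL_contDiffAt hF L (h.ld z hz)).differentiableAt (by simp)).hasFDerivAt
  have h3 : HasFDerivAt (fun w => tl (L (F (A w)))) ((tl : E (m + 1) →L[ℝ] E m).comp (dF F A L z)) z :=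
    (tl : E (m + 1) →L[ℝ] E m).hasFDerivAt.comp z h2
  rw [h3.fderiv] at h1
  have := congrArg (fun T => T v) h1
  simpa using this

lemma head_path {f : E (m + 1) → E (m + 1)} {D : E (m + 1) →L[ℝ] E (m + 1)} {x : E m} {t : ℝ}
    (h : HasFDerivAt f D (cn t x)) : HasDerivAt (fun s : ℝ => (f (cn s x)) 0) ((D e0) 0) t := by
  have h1 : HasDerivAt (fun s : ℝ => cn s x) (e0 : E (m + 1)) t := by
    have e : (fun s : ℝ => cn s x) = fun s : ℝ => s • (e0 : E (m + 1)) + cn 0 x := by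
      funext s
      rw [cn_eq]
    rw [e]
    have := ((hasDerivAt_id t).smul_const (e0 : E (m + 1))).add_const (cn 0 x)
    simpa using this
  have h2 : HasDerivAt (fun s : ℝ => f (cn s x)) (D e0) t := h.comp_hasDerivAt t h1
  have h3 : HasFDerivAt (fun y : E (m + 1) => y 0) (EuclideanSpace.proj (𝕜 := ℝ) (0 : Fin (m + 1))) (f (cn t x)) :=
    (EuclideanSpace.proj (𝕜 := ℝ) (0 : Fin (m + 1))).hasFDerivAt
  exact h3.comp_hasDerivAt t h2

theorem s_BXJ (h1 : S_DET1) : S_BXJ := by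
  intro m X _ _ _ F P A L b hF hB
  have hdet := (h1 m).2.2.2
  have hjac : ∀ z ∈ box m 1 1, jac F A L z = (dF F A L z e0) 0 := by
    intro z hz
    exact (hdet (dF F A L z) 0 (Bx_tl hF hB hz)).1
  refine ⟨fun z hz => ⟨hB.ld z hz, hB.nn z hz⟩, fun z hz v => Bx_tl hF hB hz v, hjac, ?_, ?_⟩
  · intro z hz z' hz' htl hle
    have hseg : ∀ t ∈ Icc (z 0) (z' 0), cn t (tl z) ∈ box m 1 1 := by
      intro t ht
      refine ⟨by rw [tl_cn]; exact hz.1, ?_⟩
      rw [cn_zero, abs_le]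
      exact ⟨(abs_le.1 hz.2).1.trans ht.1, ht.2.trans (abs_le.1 hz'.2).2⟩
    have hder : ∀ t ∈ Icc (z 0) (z' 0), HasDerivAt (fun s : ℝ => (L (F (A (cn s (tl z))))) 0)
        ((dF F A L (cn t (tl z)) e0) 0) t := by
      intro t ht
      have h2 : HasFDerivAt (fun w => L (F (A w))) (dF F A L (cn t (tl z))) (cn t (tl z)) :=
        ((compL_contDiffAt hF L (hB.ld _ (hseg t ht))).differentiableAt (by simp)).hasFDerivAt
      exact head_path h2
    have hmono : MonotoneOn (fun s : ℝ => (L (F (A (cn s (tl z))))) 0) (Icc (z 0) (z' 0)) := by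
      apply monotoneOn_of_deriv_nonneg (convex_Icc _ _)
      · exact fun t ht => (hder t ht).continuousAt.continuousWithinAt
      · intro t ht
        rw [interior_Icc] at ht
        exact (hder t (Ioo_subset_Icc_self ht)).differentiableAt.differentiableWithinAt
      · intro t ht
        rw [interior_Icc] at ht
        have ht' := Ioo_subset_Icc_self ht
        rw [(hder t ht').deriv, ← hjac _ (hseg t ht')]
        exact (hB.nn _ (hseg t ht')).self_of_nhds
    have := hmono (left_mem_Icc.2 hle) (right_mem_Icc.2 hle) hle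
    simp only [cn_tl] at this
    rw [htl, cn_tl] at this
    exact this
  · intro σ hσ z hz
    unfold tau
    have hs := ((compR_contDiffAt hσ (hB.ld z hz)).differentiableAt (by simp)).hasFDerivAt
    have h2 : dF (fun x => σ x • L.symm e0) A L z = (fderiv ℝ (fun w => σ (A w)) z).smulRight (e0 : E (m + 1)) := by
      unfold dF
      have e : (fun w => L (σ (A w) • L.symm (e0 : E (m + 1)))) = fun w => σ (A w) • (e0 : E (m + 1)) := by
        funext w
        rw [map_smul, L.apply_symm_apply]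
      rw [e]
      exact (hs.smul_const (e0 : E (m + 1))).fderiv
    rw [h2]
    exact (hdet (dF F A L z) _ (Bx_tl hF hB hz)).2

end Pool.Agent.L7h8.NF
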