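import Pool.Agent.L7h20.NF.Stm3

/-! # Project NF, part DET3: families of matrices -/

set_option autoImplicit false

open Set Filter Topology Metric Function
open scoped Manifold ContDiff

noncomputable section

namespace Pool.Agent.L7h8.NF

open Pool.Agent.Y522 Pool.Agent.L7h20.NF

lemma ev_split {W : Type*} [TopologicalSpace W] {z : W} {Q : ℝ × W → Prop} (h : ∀ᶠ p in 𝓝 ((0:ℝ), z), Q p) :
    ∃ η : ℝ, 0 < η ∧ ∀ᶠ w in 𝓝 z, ∀ ε : ℝ, |ε| < η → Q (ε, w) := by
  rw [nhds_prod_eq, Filter.eventually_prod_iff] at h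
  obtain ⟨pa, ha, pb, hb, h⟩ := h
  obtain ⟨η, hη, hball⟩ := Metric.eventually_nhds_iff.1 ha
  refine ⟨η, hη, ?_⟩
  filter_upwards [hb] with w hw ε hε
  exact h (hball (by rw [Real.dist_eq, sub_zero]; exact hε)) hw

theorem s_DET3 (hD : S_DET1) : S_DET3 := by
  intro m P P' z hP hP' hder
  have hdet : ContDiff ℝ ∞ (fun T : E (m + 1) →L[ℝ] E (m + 1) => T.det) := (hD m).1
  have hdetd : Differentiable ℝ (fun T : E (m + 1) →L[ℝ] E (m + 1) => T.det) := hdet.differentiable (by simp)
  have hdc : Continuous (fderiv ℝ (fun T : E (m + 1) →L[ℝ] E (m + 1) => T.det)) := hdet.continuous_fderiv (by simp)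
  constructor
  · intro hnn hpos
    have hc : ContinuousAt (fun p : ℝ × E (m + 1) => dd (P p.1 p.2) (P' p.1 p.2)) (0, z) := by
      unfold dd
      have h1 : ContinuousAt (fun p : ℝ × E (m + 1) =>
          fderiv ℝ (fun T : E (m + 1) →L[ℝ] E (m + 1) => T.det) (P p.1 p.2)) (0, z) :=
        ContinuousAt.comp (g := fderiv ℝ (fun T : E (m + 1) →L[ℝ] E (m + 1) => T.det))
          (f := fun p : ℝ × E (m + 1) => P p.1 p.2) hdc.continuousAt hP
      exact h1.clm_apply hP'
    have h2 : ∀ᶠ p : ℝ × E (m + 1) in 𝓝 (0, z), 0 < dd (P p.1 p.2) (P' p.1 p.2) := by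
      have := hc.eventually (lt_mem_nhds (a := 0) (b := dd (P 0 z) (P' 0 z)) hpos)
      exact this
    obtain ⟨η, hη, hev⟩ := ev_split (h2.and hder)
    refine ⟨η, hη, ?_⟩
    filter_upwards [hev, hnn] with w hw h0 ε hε0 hε1
    have hg : ∀ t ∈ Icc 0 ε, HasDerivAt (fun t => (P t w).det) (dd (P t w) (P' t w)) t := by
      intro t ht
      have h3 := (hw t (by rw [abs_of_nonneg ht.1]; exact ht.2.trans_lt hε1)).2
      have h4 := (hdetd (P t w)).hasFDerivAt.comp_hasDerivAt t h3
      exact h4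
    have hmono : StrictMonoOn (fun t => (P t w).det) (Icc 0 ε) := by
      apply strictMonoOn_of_deriv_pos (convex_Icc _ _)
      · exact fun t ht => (hg t ht).continuousAt.continuousWithinAt
      · intro t ht
        rw [interior_Icc] at ht
        have ht' := Ioo_subset_Icc_self ht
        rw [(hg t ht').deriv]
        exact (hw t (by rw [abs_of_nonneg ht'.1]; exact ht'.2.trans_lt hε1)).1
    have h5 := hmono (left_mem_Icc.2 hε0.le) (right_mem_Icc.2 hε0.le) hε0
    exact h0.trans_lt h5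
  · intro hne
    have hc : ContinuousAt (fun p : ℝ × E (m + 1) => (P p.1 p.2).det) (0, z) :=
      ContinuousAt.comp (g := fun T : E (m + 1) →L[ℝ] E (m + 1) => T.det)
        (f := fun p : ℝ × E (m + 1) => P p.1 p.2) hdet.continuous.continuousAt hP
    have h2 : ∀ᶠ p : ℝ × E (m + 1) in 𝓝 (0, z), (P p.1 p.2).det ≠ 0 := hc.eventually_ne hne
    obtain ⟨η, hη, hev⟩ := ev_split h2
    refine ⟨η, hη, ?_⟩
    filter_upwards [hev] with w hw ε hε0 hε1
    exact hw ε (by rw [abs_of_pos hε0]; exact hε1)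

end Pool.Agent.L7h8.NF
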